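import Pool.Agent.E8helper28.GB.Stm

set_option autoImplicit false

namespace Pool.Agent.E8helper55.GB
open Finset

open Pool.Agent.E8helper28.GB (RN NPath S_LOW)

theorem rn_symm {a b : ℕ} (h : RN a b) : RN b a := by
  obtain ⟨h1, h2, h3⟩ := h
  refine ⟨h1.symm, ?_, ?_⟩
  · rwa [add_comm]
  · rwa [Nat.dist_comm]

theorem rn_par {a b : ℕ} (h : RN a b) : (a + b) % 2 = 1 := by
  obtain ⟨_, h2, _⟩ := h
  rcases h2 with h2 | ⟨_, h2⟩
  · omega
  · exact Nat.odd_iff.1 h2

theorem three_dvd_nbr {a v : ℕ} (ha : 10 < a) (ha3 : ¬ 3 ∣ a) (h5 : 5 ∣ 2 * a + 3) (h7 : 7 ∣ 2 * a - 3)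
    (h : RN a v) : 3 ∣ v := by
  by_contra hv
  obtain ⟨hne, h2, h3⟩ := h
  have hcase : 3 ∣ a + v ∨ (3 ∣ a - v ∧ 3 ∣ v - a) := by
    clear h5 h7 h2 h3 hne
    have h1 : a % 3 = 1 ∨ a % 3 = 2 := by omega
    have h2 : v % 3 = 1 ∨ v % 3 = 2 := by omega
    rcases h1 with h1 | h1 <;> rcases h2 with h2 | h2
    · right; constructor <;> omega
    · left; omega
    · left; omega
    · right; constructor <;> omega
  rcases hcase with hc | hc
  · rcases h2 with h2 | ⟨h2, _⟩
    · omega
    · have : 3 = a + v := (Nat.prime_dvd_prime_iff_eq Nat.prime_three h2).1 hc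
      omega
  · have hd : 3 ∣ Nat.dist a v := by
      unfold Nat.dist
      omega
    rcases h3 with h3 | ⟨h3, _⟩
    · rw [h3] at hd
      omega
    · have h3' : 3 = Nat.dist a v := (Nat.prime_dvd_prime_iff_eq Nat.prime_three h3).1 hd
      unfold Nat.dist at h3'
      rcases h2 with h2 | ⟨h2, _⟩
      · omega
      · have : a + v = 2 * a + 3 ∨ a + v = 2 * a - 3 := by omega
        rcases this with h | h
        · rw [h] at h2
          have := (Nat.prime_dvd_prime_iff_eq Nat.prime_five h2).1 h5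
          omega
        · rw [h] at h2
          have := (Nat.prime_dvd_prime_iff_eq (by norm_num : Nat.Prime 7) h2).1 h7
          omega

theorem no_three {u w : ℕ} (hu : 1 ≤ u) (hw : 1 ≤ w) (hu3 : 3 ∣ u) (hw3 : 3 ∣ w) (h : RN u w) : False := by
  obtain ⟨_, h2, _⟩ := h
  rcases h2 with h2 | ⟨h2, _⟩
  · omega
  · have : 3 ∣ u + w := by omega
    have := (Nat.prime_dvd_prime_iff_eq Nat.prime_three h2).1 this
    omega

theorem low_pair {a c : ℕ} (ha : a % 210 = 61) (hc : c % 210 = 166) (r : ℕ) (hr : r ≤ 4) : ¬ NPath r a c := by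
  have key : ∀ {x v : ℕ}, (x % 210 = 61 ∨ x % 210 = 166) → RN x v → 3 ∣ v := by
    intro x v hx h
    exact three_dvd_nbr (by omega) (by omega) (by omega) (by omega) h
  intro h
  interval_cases r
  · simp only [NPath] at h
    omega
  · simp only [NPath] at h
    obtain ⟨v, _, h1, rfl⟩ := h
    have := key (Or.inl ha) h1
    omega
  · simp only [NPath] at h
    obtain ⟨v, _, h1, v2, _, h2, rfl⟩ := h
    have := rn_par h1
    have := rn_par h2
    omega
  · simp only [NPath] at h
    obtain ⟨v, hv, h1, v2, hv2, h2, v3, _, h3, rfl⟩ := h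
    exact no_three hv hv2 (key (Or.inl ha) h1) (key (Or.inr hc) (rn_symm h3)) h2
  · simp only [NPath] at h
    obtain ⟨v, _, h1, v2, _, h2, v3, _, h3, v4, _, h4, rfl⟩ := h
    have := rn_par h1
    have := rn_par h2
    have := rn_par h3
    have := rn_par h4
    omega

theorem exists_class {n : ℕ} {X : Finset ℕ} (hX : ((Icc 1 n \ X).card : ℝ) < n / 420) (hn : 420 ≤ n)
    (s : ℕ) (hs1 : 1 ≤ s) (hs : s < 210) : ∃ a ∈ X, a % 210 = s := by
  by_contra hcon
  push Not at hcon
  have hsub : (Finset.range (n / 210)).image (fun k => s + 210 * k) ⊆ Icc 1 n \ X := by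
    intro x hx
    rw [Finset.mem_image] at hx
    obtain ⟨k, hk, rfl⟩ := hx
    rw [Finset.mem_range] at hk
    rw [Finset.mem_sdiff, Finset.mem_Icc]
    refine ⟨⟨by omega, by omega⟩, ?_⟩
    intro hx
    have := hcon _ hx
    omega
  have hcard : ((Finset.range (n / 210)).image (fun k => s + 210 * k)).card = n / 210 := by
    rw [Finset.card_image_of_injective _ (fun x y h => by simpa using h), Finset.card_range]
  have h1 := Finset.card_le_card hsub
  rw [hcard] at h1
  have h2 : ((n / 210 : ℕ) : ℝ) ≤ ((Icc 1 n \ X).card : ℝ) := by exact_mod_cast h1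
  have h3 : (n : ℝ) / 420 ≤ ((n / 210 : ℕ) : ℝ) := by
    have h4 : n ≤ 420 * (n / 210) := by omega
    have h5 : (n : ℝ) ≤ 420 * ((n / 210 : ℕ) : ℝ) := by exact_mod_cast h4
    linarith
  linarith

theorem t_LOW : S_LOW := by
  intro U hU
  refine ⟨⌈Real.exp 421⌉₊ + 420, fun n hn X hX hcard => ?_⟩
  have hn1 : Real.exp 421 ≤ n := by
    refine (Nat.le_ceil _).trans ?_
    exact_mod_cast (Nat.le_add_right _ _).trans hn
  have hn0 : (0 : ℝ) < n := lt_of_lt_of_le (Real.exp_pos _) hn1
  have hlog : 421 ≤ Real.log n := by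
    rw [Real.le_log_iff_exp_le hn0]
    exact hn1
  have hpow : Real.log n ≤ Real.log n ^ U := by
    calc Real.log n = Real.log n ^ 1 := (pow_one _).symm
    _ ≤ Real.log n ^ U := pow_le_pow_right₀ (by linarith) hU
  have hlt : ((Icc 1 n \ X).card : ℝ) < n / 420 := by
    refine lt_of_le_of_lt hcard ?_
    apply div_lt_div_of_pos_left hn0 (by norm_num)
    linarith
  have hn420 : 420 ≤ n := by omega
  obtain ⟨a, ha, ha'⟩ := exists_class hlt hn420 61 (by norm_num) (by norm_num)
  obtain ⟨c, hc, hc'⟩ := exists_class hlt hn420 166 (by norm_num) (by norm_num)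
  exact ⟨a, ha, c, hc, fun r hr => low_pair ha' hc' r hr⟩

end Pool.Agent.E8helper55.GB
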